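import Mathlib
import Pool.Agent.Helper644_LA.Root

set_option autoImplicit false

/-! # Lenstra's conjecture and boundedness of the index

The error in Lenstra's density formula for `(F, C, W', k')` is, up to `o(1)`, at most the proportion of
the primes for which the index of a fixed group `W`, some power `W ^ m` of which lies in `W'`, does not
divide a given integer. Hence Q1 for all `(F, C, W', k')`, `W'` containing some power of `W`, follows if
the index of `W` modulo `q` is bounded outside sets of primes of small upper density, and this holds if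
and only if Q1 holds for `(ℚ, W, k)` for some multiple `k` of every positive integer. In full, Q1 is equivalent to: for every rational
`a > 1` which is not a perfect power, and every `ε > 0`, there is `B` such that the index of `a` modulo
`q` is at most `B` for all primes `q` outside a set of upper density `≤ ε`. -/

namespace Pool.Agent.Results.MP_48b1c3_nt.BoundedIndex

open NumberField Filter Topology

/-- the Frobenius class of `q` in `Gal(F/ℚ)` lies in `C` (`q` unramified, `C` stable under conjugation) -/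
def Frob (F : IntermediateField ℚ (AlgebraicClosure ℚ)) [NumberField F] (C : Set (F ≃ₐ[ℚ] F))
    (q : ℕ) : Prop :=
  ∃ σ ∈ C, ∃ Q : Ideal (𝓞 F), Q.IsPrime ∧
    Q.comap (algebraMap ℤ (𝓞 F)) = Ideal.span {(q : ℤ)} ∧
    ∀ a b : 𝓞 F, (b : F) = σ (a : F) → b - a ^ q ∈ Q

/-- the index `r_q(W)` -/
noncomputable def index (W : Subgroup ℚˣ) (q : ℕ) : ℕ :=
  (Subgroup.closure {u : (ZMod q)ˣ | ∃ w ∈ W,
    (((w : ℚ).num : ℤ) : ZMod q) = (u : ZMod q) * (((w : ℚ).den : ℕ) : ZMod q)}).index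

/-- the set `S(F, C, W, k)` of Q1 -/
def Mem (F : IntermediateField ℚ (AlgebraicClosure ℚ)) [NumberField F] (C : Set (F ≃ₐ[ℚ] F))
    (W : Subgroup ℚˣ) (k q : ℕ) : Prop :=
  Frob F C q ∧ (∀ w ∈ W, padicValRat q (w : ℚ) = 0) ∧ index W q ∣ k

/-- the set of Q1 for `F = ℚ` -/
def Mem₀ (W : Subgroup ℚˣ) (k q : ℕ) : Prop :=
  (∀ w ∈ W, padicValRat q (w : ℚ) = 0) ∧ index W q ∣ k

/-- the proportion of the primes `q ≤ x` with `A q` -/
noncomputable def proportion (A : ℕ → Prop) (x : ℕ) : ℝ :=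
  (Nat.card {q : ℕ // q ≤ x ∧ q.Prime ∧ A q} : ℝ) / (Nat.primeCounting x : ℝ)

/-- the field `L_n` -/
noncomputable def L (W : Subgroup ℚˣ) (k n : ℕ) : IntermediateField ℚ (AlgebraicClosure ℚ) :=
  IntermediateField.adjoin ℚ {z : AlgebraicClosure ℚ | ∃ w ∈ W,
    z ^ (∏ l ∈ n.primeFactors, l ^ (k.factorization l + 1)) =
      algebraMap ℚ (AlgebraicClosure ℚ) (w : ℚ)}

/-- Lenstra's density `δ(F, C, W, k)` -/
noncomputable def δ (F : IntermediateField ℚ (AlgebraicClosure ℚ)) [NumberField F]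
    (C : Set (F ≃ₐ[ℚ] F)) (W : Subgroup ℚˣ) (k : ℕ) : ℝ :=
  ∑' n : ℕ, (ArithmeticFunction.moebius n : ℝ) *
    (Nat.card {σ : F ≃ₐ[ℚ] F // σ ∈ C ∧
      ∀ y : F, (y : AlgebraicClosure ℚ) ∈ L W k n → σ y = y} : ℝ) /
    (Module.finrank ℚ ↥(F ⊔ L W k n) : ℝ)

/-- Lenstra's density for `F = ℚ` -/
noncomputable def δ₀ (W : Subgroup ℚˣ) (k : ℕ) : ℝ :=
  ∑' n : ℕ, (ArithmeticFunction.moebius n : ℝ) / (Module.finrank ℚ ↥(L W k n) : ℝ)

/-- the error at `x` -/
noncomputable def error (F : IntermediateField ℚ (AlgebraicClosure ℚ)) [NumberField F]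
    (C : Set (F ≃ₐ[ℚ] F)) (W : Subgroup ℚˣ) (k x : ℕ) : ℝ :=
  |proportion (Mem F C W k) x - δ F C W k|

/-- Q1 for `(F, C, W, k)` -/
def Holds (F : IntermediateField ℚ (AlgebraicClosure ℚ)) [NumberField F] (C : Set (F ≃ₐ[ℚ] F))
    (W : Subgroup ℚˣ) (k : ℕ) : Prop :=
  Tendsto (proportion (Mem F C W k)) atTop (𝓝 (δ F C W k))

/-- Q1 for `F = ℚ` -/
def Holds₀ (W : Subgroup ℚˣ) (k : ℕ) : Prop :=
  Tendsto (proportion (Mem₀ W k)) atTop (𝓝 (δ₀ W k))

/-- `C` is stable under conjugation -/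
def Stable (F : IntermediateField ℚ (AlgebraicClosure ℚ)) (C : Set (F ≃ₐ[ℚ] F)) : Prop :=
  ∀ σ ∈ C, ∀ τ : F ≃ₐ[ℚ] F, τ * σ * τ⁻¹ ∈ C

/-- `W` is finitely generated of positive rank -/
def Adm (W : Subgroup ℚˣ) : Prop := W.FG ∧ ∃ w ∈ W, ¬ IsOfFinOrder w

/-- the index of `W` is bounded outside sets of primes of small upper density -/
def BddIndex (W : Subgroup ℚˣ) : Prop :=
  ∀ ε : ℝ, 0 < ε → ∃ B : ℕ, ∀ᶠ x in atTop, proportion (fun q => B < index W q) x ≤ ε

open Pool.Agent.Helper644_LA Pool.Agent.W171.LG in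
theorem result :
    -- the error is at most the proportion of the primes for which the index does not divide a given `k`
    (∀ (F : IntermediateField ℚ (AlgebraicClosure ℚ)) [NumberField F] [IsGalois ℚ F]
        (C : Set (F ≃ₐ[ℚ] F)) (W W' : Subgroup ℚˣ) (k k' m : ℕ), Stable F C → Adm W → W'.FG →
        0 < k → 0 < k' → 0 < m → (∀ w ∈ W, w ^ m ∈ W') →
        ∀ ε : ℝ, 0 < ε → ∀ᶠ x in atTop,
          error F C W' k' x ≤ 1 - proportion (Mem₀ W k) x + ε) ∧
    -- bounded index and Q1 for one group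
    (∀ W : Subgroup ℚˣ, Adm W →
      (BddIndex W ↔ ∀ K : ℕ, 0 < K → ∃ k : ℕ, 0 < k ∧ K ∣ k ∧ Holds₀ W k) ∧
      (BddIndex W → ∀ (F : IntermediateField ℚ (AlgebraicClosure ℚ)) [NumberField F]
        [IsGalois ℚ F] (C : Set (F ≃ₐ[ℚ] F)) (W' : Subgroup ℚˣ) (k' m : ℕ), Stable F C → W'.FG →
        0 < k' → 0 < m → (∀ w ∈ W, w ^ m ∈ W') → Holds F C W' k')) ∧
    -- Q1
    ((∀ (F : IntermediateField ℚ (AlgebraicClosure ℚ)) [NumberField F] [IsGalois ℚ F]
        (C : Set (F ≃ₐ[ℚ] F)) (W : Subgroup ℚˣ) (k : ℕ), Stable F C → Adm W → 0 < k →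
        Holds F C W k) ↔
      ∀ a : ℚˣ, 1 < (a : ℚ) → (∀ (c : ℚ) (r : ℕ), 1 < r → c ^ r ≠ (a : ℚ)) →
        BddIndex (Subgroup.zpowers a)) := by
  have eP : ∀ (A : ℕ → Prop) (x : ℕ), proportion A x = Pool.Agent.W401.Cheb.M (ind A) x :=
    fun A x => (M_ind A x).symm
  have eM : ∀ (F : IntermediateField ℚ (AlgebraicClosure ℚ)) [NumberField F] [IsGalois ℚ F]
      (C : Set (F ≃ₐ[ℚ] F)) (W : Subgroup ℚˣ) (k x : ℕ),
      proportion (Mem F C W k) x = mS F C W k x := by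
    intro F _ _ C W k x
    rw [eP, mS_ind]
    rfl
  have eM0 : ∀ (W : Subgroup ℚˣ) (k x : ℕ), proportion (Mem₀ W k) x =
      Pool.Agent.W401.Cheb.M (ind fun q => L0 W k q) x := by
    intro W k x
    rw [eP]
    rfl
  have eD : ∀ (F : IntermediateField ℚ (AlgebraicClosure ℚ)) [NumberField F] [IsGalois ℚ F]
      (C : Set (F ≃ₐ[ℚ] F)) (W : Subgroup ℚˣ) (k : ℕ), δ F C W k = dL F C W k := by
    intro F _ _ C W k
    rfl
  have eD0 : ∀ (W : Subgroup ℚˣ) (k : ℕ), δ₀ W k = dL Q0 Set.univ W k := by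
    intro W k
    rw [dL_univ]
    rfl
  have eI : ∀ (B : ℕ) (W : Subgroup ℚˣ) (x : ℕ), proportion (fun q => B < index W q) x =
      Pool.Agent.W401.Cheb.M (ind fun q => B < idx W q) x := by
    intro B W x
    rw [eP]
    rfl
  have eT : ∀ W : Subgroup ℚˣ, BddIndex W ↔ Tight W := by
    intro W
    unfold BddIndex Tight
    simp only [eI]
  have eL0 : ∀ (W : Subgroup ℚˣ) (k : ℕ), Holds₀ W k ↔ Law Q0 Set.univ W k := by
    intro W k
    rw [← law0_iff]
    unfold Holds₀ Law0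
    rw [eD0]
    have : proportion (Mem₀ W k) = Pool.Agent.W401.Cheb.M (ind fun q => L0 W k q) :=
      funext fun x => eM0 W k x
    rw [this]
  have eL : ∀ (F : IntermediateField ℚ (AlgebraicClosure ℚ)) [NumberField F] [IsGalois ℚ F]
      (C : Set (F ≃ₐ[ℚ] F)) (W : Subgroup ℚˣ) (k : ℕ), Holds F C W k ↔ Law F C W k := by
    intro F _ _ C W k
    unfold Holds Law
    have : proportion (Mem F C W k) = mS F C W k := funext fun x => eM F C W k x
    rw [this, eD]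
  have h4 : ∀ W : Subgroup ℚˣ, Adm W →
      (BddIndex W ↔ ∀ K : ℕ, 0 < K → ∃ k : ℕ, 0 < k ∧ K ∣ k ∧ Holds₀ W k) ∧
      (BddIndex W → ∀ (F : IntermediateField ℚ (AlgebraicClosure ℚ)) [NumberField F]
        [IsGalois ℚ F] (C : Set (F ≃ₐ[ℚ] F)) (W' : Subgroup ℚˣ) (k' m : ℕ), Stable F C → W'.FG →
        0 < k' → 0 < m → (∀ w ∈ W, w ^ m ∈ W') → Holds F C W' k') := by
    intro W hW
    have hP := pos_of_inf hW.2
    refine ⟨⟨fun h K hK => ⟨K, hK, dvd_rfl, ?_⟩, fun h => ?_⟩, ?_⟩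
    · rw [eL0]
      rw [eT] at h
      exact law_of_tight univ_conj hW.1 hP hW.1 one_ne_zero
        (fun w hw => by rwa [pow_one]) hK.ne' h
    · rw [eT]
      refine tight_of_law hW.1 hP fun K hK => ?_
      obtain ⟨k, hk, hKk, h1⟩ := h K hK
      exact ⟨k, hk, hKk, (eL0 W k).1 h1⟩
    · intro h F _ _ C W' k' m hC hW' hk' hm hWW
      rw [eL]
      rw [eT] at h
      exact law_of_tight hC hW.1 hP hW' hm.ne' hWW hk'.ne' h
  refine ⟨?_, h4, ?_, ?_⟩
  · intro F _ _ C W W' k k' m hC hW hW' hk hk' hm hWW ε hε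
    have h := abs_tail (F := F) hC hW.1 (pos_of_inf hW.2) hW' hm.ne' hWW hk.ne' hk'.ne' hε
    unfold error
    simp only [eM, eD, eM0]
    exact h
  · intro h a ha _
    have ha1 : |((a : ℚˣ) : ℚ)| ≠ 1 := by
      rw [abs_of_pos (by linarith)]
      exact ha.ne'
    have hadm : Adm (Subgroup.zpowers a) :=
      ⟨zpow_fg a, a, Subgroup.mem_zpowers a, inf_of_abs ha1⟩
    rw [(h4 _ hadm).1]
    intro K hK
    refine ⟨K, hK, dvd_rfl, ?_⟩
    rw [eL0, ← eL]
    exact h Q0 Set.univ (Subgroup.zpowers a) K (fun _ _ _ => Set.mem_univ _) hadm hK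
  · intro h F _ _ C W k hC hW hk
    obtain ⟨b, hb1, hb2, m, hm, hbW⟩ := exists_base (pos_of_inf hW.2)
    have hb : |((b : ℚˣ) : ℚ)| ≠ 1 := by
      rw [abs_of_pos (by linarith)]
      exact hb1.ne'
    have hadm : Adm (Subgroup.zpowers b) :=
      ⟨zpow_fg b, b, Subgroup.mem_zpowers b, inf_of_abs hb⟩
    exact (h4 _ hadm).2 (h b hb1 hb2) F C W k m hC hW.1 hk (Nat.pos_of_ne_zero hm) hbW

end Pool.Agent.Results.MP_48b1c3_nt.BoundedIndex
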