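import Mathlib
import Pool.Agent.Helper644_LA.Final

set_option autoImplicit false

/-! # Comparison of the errors in Lenstra's density formula

For every quadruple `(F, C, W, k)` of Q1 and every `k' ∣ k` the error in Lenstra's density formula for
`(F, C, W, k')` is, up to `o(1)`, at most the error for `(ℚ, W, k)`; more generally the error grows with
the Frobenius condition and (for divisibility) with `k`. Hence Q1 for `(ℚ, W, k)` implies Q1 for all
`(F, C, W, k')`. -/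

namespace Pool.Agent.Results.MP_48b1c3_nt.ErrorComparison

open NumberField Filter Topology

/-- the Frobenius class of `q` in `Gal(F/ℚ)` lies in `C` (`q` unramified, `C` stable under conjugation) -/
def Frob (F : IntermediateField ℚ (AlgebraicClosure ℚ)) [NumberField F] (C : Set (F ≃ₐ[ℚ] F))
    (q : ℕ) : Prop :=
  ∃ σ ∈ C, ∃ Q : Ideal (𝓞 F), Q.IsPrime ∧
    Q.comap (algebraMap ℤ (𝓞 F)) = Ideal.span {(q : ℤ)} ∧
    ∀ a b : 𝓞 F, (b : F) = σ (a : F) → b - a ^ q ∈ Q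

/-- the index `r_q(W)` -/
noncomputable def index (W : Subgroup ℚˣ) (q : ℕ) : ℕ :=
  (Subgroup.closure {u : (ZMod q)ˣ | ∃ w ∈ W,
    (((w : ℚ).num : ℤ) : ZMod q) = (u : ZMod q) * (((w : ℚ).den : ℕ) : ZMod q)}).index

/-- the set `S(F, C, W, k)` of Q1 -/
def Mem (F : IntermediateField ℚ (AlgebraicClosure ℚ)) [NumberField F] (C : Set (F ≃ₐ[ℚ] F))
    (W : Subgroup ℚˣ) (k q : ℕ) : Prop :=
  Frob F C q ∧ (∀ w ∈ W, padicValRat q (w : ℚ) = 0) ∧ index W q ∣ k

/-- the set of Q1 for `F = ℚ` -/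
def Mem₀ (W : Subgroup ℚˣ) (k q : ℕ) : Prop :=
  (∀ w ∈ W, padicValRat q (w : ℚ) = 0) ∧ index W q ∣ k

/-- the proportion of the primes `q ≤ x` with `A q` -/
noncomputable def proportion (A : ℕ → Prop) (x : ℕ) : ℝ :=
  (Nat.card {q : ℕ // q ≤ x ∧ q.Prime ∧ A q} : ℝ) / (Nat.primeCounting x : ℝ)

/-- the field `L_n` -/
noncomputable def L (W : Subgroup ℚˣ) (k n : ℕ) : IntermediateField ℚ (AlgebraicClosure ℚ) :=
  IntermediateField.adjoin ℚ {z : AlgebraicClosure ℚ | ∃ w ∈ W,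
    z ^ (∏ l ∈ n.primeFactors, l ^ (k.factorization l + 1)) =
      algebraMap ℚ (AlgebraicClosure ℚ) (w : ℚ)}

/-- Lenstra's density `δ(F, C, W, k)` -/
noncomputable def δ (F : IntermediateField ℚ (AlgebraicClosure ℚ)) [NumberField F]
    (C : Set (F ≃ₐ[ℚ] F)) (W : Subgroup ℚˣ) (k : ℕ) : ℝ :=
  ∑' n : ℕ, (ArithmeticFunction.moebius n : ℝ) *
    (Nat.card {σ : F ≃ₐ[ℚ] F // σ ∈ C ∧
      ∀ y : F, (y : AlgebraicClosure ℚ) ∈ L W k n → σ y = y} : ℝ) /
    (Module.finrank ℚ ↥(F ⊔ L W k n) : ℝ)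

/-- Lenstra's density for `F = ℚ` -/
noncomputable def δ₀ (W : Subgroup ℚˣ) (k : ℕ) : ℝ :=
  ∑' n : ℕ, (ArithmeticFunction.moebius n : ℝ) / (Module.finrank ℚ ↥(L W k n) : ℝ)

/-- the error at `x` -/
noncomputable def error (F : IntermediateField ℚ (AlgebraicClosure ℚ)) [NumberField F]
    (C : Set (F ≃ₐ[ℚ] F)) (W : Subgroup ℚˣ) (k x : ℕ) : ℝ :=
  |proportion (Mem F C W k) x - δ F C W k|

/-- the error at `x` for `F = ℚ` -/
noncomputable def error₀ (W : Subgroup ℚˣ) (k x : ℕ) : ℝ :=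
  |proportion (Mem₀ W k) x - δ₀ W k|

/-- Q1 for `(F, C, W, k)` -/
def Holds (F : IntermediateField ℚ (AlgebraicClosure ℚ)) [NumberField F] (C : Set (F ≃ₐ[ℚ] F))
    (W : Subgroup ℚˣ) (k : ℕ) : Prop :=
  Tendsto (proportion (Mem F C W k)) atTop (𝓝 (δ F C W k))

/-- Q1 for `F = ℚ` -/
def Holds₀ (W : Subgroup ℚˣ) (k : ℕ) : Prop :=
  Tendsto (proportion (Mem₀ W k)) atTop (𝓝 (δ₀ W k))

/-- `C` is stable under conjugation -/
def Stable (F : IntermediateField ℚ (AlgebraicClosure ℚ)) (C : Set (F ≃ₐ[ℚ] F)) : Prop :=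
  ∀ σ ∈ C, ∀ τ : F ≃ₐ[ℚ] F, τ * σ * τ⁻¹ ∈ C

/-- `W` is finitely generated of positive rank -/
def Adm (W : Subgroup ℚˣ) : Prop := W.FG ∧ ∃ w ∈ W, ¬ IsOfFinOrder w

open Pool.Agent.Helper644_LA Pool.Agent.W171.LG in
theorem result :
    -- the error grows with the Frobenius condition and with `k`
    (∀ (F F' : IntermediateField ℚ (AlgebraicClosure ℚ)) [NumberField F] [IsGalois ℚ F]
        [NumberField F'] [IsGalois ℚ F'] (C : Set (F ≃ₐ[ℚ] F)) (C' : Set (F' ≃ₐ[ℚ] F'))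
        (W : Subgroup ℚˣ) (k k' : ℕ), Stable F C → Stable F' C' → Adm W → 0 < k → k' ∣ k →
        (∀ᶠ q : ℕ in atTop, q.Prime → Frob F C q → Frob F' C' q) →
        ∀ ε : ℝ, 0 < ε → ∀ᶠ x in atTop, error F C W k' x ≤ error F' C' W k x + ε) ∧
    -- it is at most the error over `ℚ`
    (∀ (F : IntermediateField ℚ (AlgebraicClosure ℚ)) [NumberField F] [IsGalois ℚ F]
        (C : Set (F ≃ₐ[ℚ] F)) (W : Subgroup ℚˣ) (k k' : ℕ), Stable F C → Adm W → 0 < k → k' ∣ k →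
        ∀ ε : ℝ, 0 < ε → ∀ᶠ x in atTop, error F C W k' x ≤ error₀ W k x + ε) ∧
    -- Q1 over `ℚ` implies Q1 for all Frobenius conditions
    (∀ (W : Subgroup ℚˣ) (k : ℕ), Adm W → 0 < k →
      (Holds₀ W k ↔ ∀ (F : IntermediateField ℚ (AlgebraicClosure ℚ)) [NumberField F] [IsGalois ℚ F]
        (C : Set (F ≃ₐ[ℚ] F)) (k' : ℕ), Stable F C → k' ∣ k → Holds F C W k')) := by
  have eP : ∀ (A : ℕ → Prop) (x : ℕ), proportion A x = Pool.Agent.W401.Cheb.M (ind A) x :=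
    fun A x => (M_ind A x).symm
  have eM : ∀ (F : IntermediateField ℚ (AlgebraicClosure ℚ)) [NumberField F] [IsGalois ℚ F]
      (C : Set (F ≃ₐ[ℚ] F)) (W : Subgroup ℚˣ) (k x : ℕ),
      proportion (Mem F C W k) x = mS F C W k x := by
    intro F _ _ C W k x
    rw [eP, mS_ind]
    rfl
  have eM0 : ∀ (W : Subgroup ℚˣ) (k x : ℕ), proportion (Mem₀ W k) x =
      Pool.Agent.W401.Cheb.M (ind fun q => L0 W k q) x := by
    intro W k x
    rw [eP]
    rfl
  have eD : ∀ (F : IntermediateField ℚ (AlgebraicClosure ℚ)) [NumberField F] [IsGalois ℚ F]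
      (C : Set (F ≃ₐ[ℚ] F)) (W : Subgroup ℚˣ) (k : ℕ), δ F C W k = dL F C W k := by
    intro F _ _ C W k
    rfl
  have eD0 : ∀ (W : Subgroup ℚˣ) (k : ℕ), δ₀ W k = dL Q0 Set.univ W k := by
    intro W k
    rw [dL_univ]
    rfl
  have eL0 : ∀ (W : Subgroup ℚˣ) (k : ℕ), Holds₀ W k ↔ Law Q0 Set.univ W k := by
    intro W k
    rw [← law0_iff]
    unfold Holds₀ Law0
    rw [eD0]
    have : proportion (Mem₀ W k) = Pool.Agent.W401.Cheb.M (ind fun q => L0 W k q) :=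
      funext fun x => eM0 W k x
    rw [this]
  have eL : ∀ (F : IntermediateField ℚ (AlgebraicClosure ℚ)) [NumberField F] [IsGalois ℚ F]
      (C : Set (F ≃ₐ[ℚ] F)) (W : Subgroup ℚˣ) (k : ℕ), Holds F C W k ↔ Law F C W k := by
    intro F _ _ C W k
    unfold Holds Law
    have : proportion (Mem F C W k) = mS F C W k := funext fun x => eM F C W k x
    rw [this, eD]
  refine ⟨?_, ?_, ?_⟩
  · intro F F' _ _ _ _ C C' W k k' hC hC' hW hk hkk hF ε hε
    have h := abs_mono (F := F) (F' := F') hC hC' hW.1 (pos_of_inf hW.2) hk.ne' hkk hF hε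
    unfold error
    simp only [eM, eD]
    exact h
  · intro F _ _ C W k k' hC hW hk hkk ε hε
    have h := abs_mono0 (F := F) hC hW.1 (pos_of_inf hW.2) hk.ne' hkk hε
    unfold error error₀
    simp only [eM, eD, eM0, eD0]
    exact h
  · intro W k hW hk
    constructor
    · intro h F _ _ C k' hC hkk
      rw [eL]
      unfold Law
      rw [Metric.tendsto_nhds]
      intro ε hε
      have h1 := abs_mono0 (F := F) hC hW.1 (pos_of_inf hW.2) hk.ne' hkk (show 0 < ε / 2 by linarith)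
      have h2 := (Metric.tendsto_nhds.1 h) (ε / 2) (by linarith)
      filter_upwards [h1, h2] with x hx1 hx2
      rw [Real.dist_eq, eM0, eD0] at hx2
      rw [Real.dist_eq]
      linarith
    · intro h
      rw [eL0, ← eL]
      exact h Q0 Set.univ k (fun _ _ _ => Set.mem_univ _) dvd_rfl

end Pool.Agent.Results.MP_48b1c3_nt.ErrorComparison
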