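import Pool.Agent.H735A.VarK
import Pool.Agent.H735A.Lens

/-! # The Gaussian law for the number of primes at which the index of a group of numbers divides `k`

The problem counts the primes `q ≤ x` with a Frobenius condition at which the index of the reduction of a group
`W` in `(ℤ/q)ˣ` divides `k`. Here `W = ⟨W₀, m⟩` with a fixed group `W₀` (possibly trivial) and one random generator
`m`, a random integer in `[1, y x]`, where `log (y x) / log x → ∞`; the Frobenius condition is replaced by arbitrary
sets of primes, and the reduction of `W₀` modulo `q` by an arbitrary subgroup `H q` of `(ℤ/q)ˣ`.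

For `i ≤ r` let `H i` be a choice of subgroups, `k i` a number and `P x i` a set of primes `q ≤ x`, the `P x i`,
`i ≤ r`, being disjoint (for instance the primes whose Frobenius classes in a fixed Galois group are in disjoint
sets `C_i`). Let `cntK (H i) (k i) (P x i) m` be the number of the `q ∈ P x i` prime to `m` at which the index of the
group generated by `H i q` and `m` divides `k i`, let `wK (H i) (k i) q` be the proportion of the residues `m` modulo
`q` with this property and `WK (H i) (k i) (P x i) = ∑_{q ∈ P x i} w (1 - w)` the variance.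

* If the variances tend to infinity, then the numbers `(cntK - ∑ wK) / √WK`, `i ≤ r`, converge jointly in distribution
  to `r` independent standard normal variables.
* For `H i = 1`, that is, for `W = ⟨m⟩`, the number of the residues is `∑_{d ∣ gcd(q - 1, k)} φ((q - 1) / d)`, and the
  variance tends to infinity for every `k` and every `P x` which contains, for some prime `l ∤ k`, more than `√x`
  primes `q ≡ 1 mod l`, up to a factor tending to infinity. For example: for `k = 1` (primitive roots) every `P x` with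
  `|P x| / √x → ∞` is allowed.
* In particular for every `k ≥ 1` the number of the primes `q ≤ x` for which the index of the group generated by `m`
  divides `k` is asymptotically normal. The mean `∑_{q ≤ x} wK` is asymptotic to `deltaL k π(x)`, where
  `deltaL k = ∑_n μ(n) / (q(n) φ(q(n)))` with `q(n) = ∏_{l ∣ n} l ^ (v_l(k) + 1)` as in the problem is the value of
  Lenstra's density `δ(ℚ, 1, ⟨m⟩, k)` when the fields `L_n = ℚ(ζ_{q(n)}, m ^ (1 / q(n)))` have the full degrees
  `q(n) φ(q(n))`; the variance lies between `c π(x)` and `π(x) / 4` for large `x`, with `c = c(k) > 0`.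
-/

set_option autoImplicit false

namespace Pool.Agent.Results.MP_48b1c3_nt.GaussianLawOfTheIndex

open Finset Filter Topology Pool.Agent.H735A

open Classical in
theorem result (y : ℕ → ℕ) (hy : Tendsto (fun x : ℕ => Real.log (y x) / Real.log x) atTop atTop) :
    -- the joint law
    (∀ (r : ℕ) (H : Fin r → Sub) (k : Fin r → ℕ) (P : ℕ → Fin r → Finset ℕ),
      (∀ x i, ∀ q ∈ P x i, q.Prime ∧ q ≤ x) → (∀ x i j, i ≠ j → Disjoint (P x i) (P x j)) →
      (∀ i, Tendsto (fun x : ℕ => WK (H i) (k i) (P x i)) atTop atTop) →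
      ∀ t : Fin r → ℝ, Tendsto (fun x : ℕ => (#((Icc 1 (y x)).filter (fun m => ∀ i,
        (cntK (H i) (k i) (P x i) m : ℝ) ≤
          ∑ q ∈ P x i, wK (H i) (k i) q + t i * √(WK (H i) (k i) (P x i)))) : ℝ) / y x) atTop
        (𝓝 (∏ i, (ProbabilityTheory.gaussianReal 0 1).real (Set.Iic (t i))))) ∧
    -- the proportions and the variance if only `m` generates the group
    (∀ k q : ℕ, q.Prime → nuK triv k q =
      ∑ d ∈ (q - 1).divisors.filter (fun d => d ∣ k), Nat.totient ((q - 1) / d)) ∧
    (∀ (k l : ℕ), l.Prime → ¬ l ∣ k → ∀ P : ℕ → Finset ℕ, (∀ x, ∀ q ∈ P x, q.Prime ∧ q ≤ x) →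
      Tendsto (fun x : ℕ => (#((P x).filter (fun q => q % l = 1 % l)) : ℝ) / √(x : ℝ)) atTop atTop →
      Tendsto (fun x : ℕ => WK triv k (P x)) atTop atTop) ∧
    -- all primes
    (∀ k : ℕ, 1 ≤ k → (∀ t : ℝ, Tendsto (fun x : ℕ => (#((Icc 1 (y x)).filter (fun m =>
        (cntK triv k ((Icc 1 x).filter Nat.Prime) m : ℝ) ≤ ∑ q ∈ (Icc 1 x).filter Nat.Prime, wK triv k q +
          t * √(WK triv k ((Icc 1 x).filter Nat.Prime)))) : ℝ) / y x) atTop
        (𝓝 ((ProbabilityTheory.gaussianReal 0 1).real (Set.Iic t)))) ∧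
      Tendsto (fun x : ℕ => (∑ q ∈ (Icc 1 x).filter Nat.Prime, wK triv k q) /
        (Nat.primeCounting x : ℝ)) atTop
        (𝓝 (∑' n : ℕ, ((ArithmeticFunction.moebius n : ℤ) : ℝ) / (qq k n : ℝ) *
          ((Nat.totient (qq k n) : ℝ)⁻¹))) ∧
      ∃ c : ℝ, 0 < c ∧ ∀ᶠ x : ℕ in atTop,
        c * Nat.primeCounting x ≤ WK triv k ((Icc 1 x).filter Nat.Prime) ∧
        WK triv k ((Icc 1 x).filter Nat.Prime) ≤ Nat.primeCounting x / 4) := by
  have hy' : ∀ K : ℕ, ∀ᶠ x in atTop, x ^ K ≤ y x := by
    intro K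
    filter_upwards [hy.eventually_ge_atTop ((K : ℝ) + 1), eventually_ge_atTop 2] with x h1 h2
    have hx : (1 : ℝ) < x := by exact_mod_cast (by omega : 1 < x)
    have hl : 0 < Real.log x := Real.log_pos hx
    rw [le_div_iff₀ hl] at h1
    have hyp : (0 : ℝ) < y x := by
      rcases Nat.eq_zero_or_pos (y x) with h | h
      · rw [h] at h1
        simp at h1
        nlinarith [Nat.cast_nonneg (α := ℝ) K]
      · exact_mod_cast h
    have h3 : (K : ℝ) * Real.log x ≤ Real.log (y x) := by nlinarith
    rw [← Real.log_pow] at h3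
    have h4 := (Real.log_le_log_iff (by positivity) hyp).1 h3
    exact_mod_cast h4
  have hvar : ∀ (k l : ℕ), l.Prime → ¬ l ∣ k → ∀ P : ℕ → Finset ℕ, (∀ x, ∀ q ∈ P x, q.Prime ∧ q ≤ x) →
      Tendsto (fun x : ℕ => (#((P x).filter (fun q => q % l = 1 % l)) : ℝ) / √(x : ℝ)) atTop atTop →
      Tendsto (fun x : ℕ => WK triv k (P x)) atTop atTop := by
    intro k l hl hlk P hP h
    have hl0 : (0 : ℝ) < l := by exact_mod_cast hl.pos
    have h1 := h.const_mul_atTop (show (0 : ℝ) < 1 / (2 * l) by positivity)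
    refine tendsto_atTop_mono (fun x => ?_) h1
    refine le_trans (le_of_eq ?_) (WK_lower k hl hlk x (P x) (hP x))
    rw [div_mul_div_comm, one_mul]
  refine ⟨fun r H k P hP hdis hW t => by convert cltK H k y hy' P hP hdis hW t,
    fun k q hq => nuK_formula k hq, hvar, fun k hk => ⟨fun t => ?_, mean_lens k hk, ?_⟩⟩
  swap
  · obtain ⟨c, hc, h⟩ := WK_order k hk
    refine ⟨c, hc, ?_⟩
    filter_upwards [h] with x hx
    exact ⟨hx, WK_le k x⟩
  -- all primes
  have hPr : ∀ x : ℕ, ∀ q ∈ (Icc 1 x).filter Nat.Prime, q.Prime ∧ q ≤ x := by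
    intro x q hq
    rw [mem_filter, mem_Icc] at hq
    exact ⟨hq.2, hq.1.2⟩
  obtain ⟨l, hlk, hl⟩ := Nat.exists_infinite_primes (k + 3)
  have hlk' : ¬ l ∣ k := fun h => by
    have := Nat.le_of_dvd (by omega) h
    omega
  have hodd : ¬ 2 ∣ l := by
    intro h
    have := (Nat.prime_dvd_prime_iff_eq Nat.prime_two hl).1 h
    omega
  have hl0 : (0 : ℝ) < l := by exact_mod_cast hl.pos
  have hl1 : (0 : ℝ) < (l : ℝ) - 1 := by
    have : (2 : ℝ) ≤ l := by exact_mod_cast hl.two_le
    linarith
  have hsq : Squarefree (5 : ℤ) := by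
    have : Prime (5 : ℤ) := by
      rw [Int.prime_iff_natAbs_prime]
      norm_num
    exact this.squarefree
  have hlim := Pool.Agent.H730R2.AA.Wd_lim 5 hsq (by norm_num) (by norm_num) l hl.one_le
  have hom : Pool.Agent.H730R2.AA.om 5 l = 1 / ((l : ℝ) - 1) := by
    unfold Pool.Agent.H730R2.AA.om
    rw [if_neg, Nat.totient_prime hl, Nat.cast_sub hl.one_le]
    · simp
    · intro h
      exact hodd ((Dvd.intro _ rfl).trans h)
  rw [hom] at hlim
  have hcount : ∀ x : ℕ, Pool.Agent.H730R2.AA.Wd 5 l x ≤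
      #(((Icc 1 x).filter Nat.Prime).filter (fun q => q % l = 1 % l)) := by
    intro x
    unfold Pool.Agent.H730R2.AA.Wd
    simp only [if_neg hodd, add_zero]
    rw [sum_const, nsmul_eq_mul, mul_one]
    have : (Pool.Agent.H730R2.AA.PR 5 x).filter (fun p => p % l = 1 % l) ⊆
        ((Icc 1 x).filter Nat.Prime).filter (fun q => q % l = 1 % l) := by
      apply filter_subset_filter
      intro p hp
      unfold Pool.Agent.H730R2.AA.PR at hp
      rw [mem_filter, mem_range] at hp
      rw [mem_filter, mem_Icc]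
      exact ⟨⟨hp.2.1.pos, by omega⟩, hp.2.1⟩
    exact_mod_cast card_le_card this
  have hgrow : Tendsto (fun x : ℕ => (#(((Icc 1 x).filter Nat.Prime).filter
      (fun q => q % l = 1 % l)) : ℝ) / √(x : ℝ)) atTop atTop := by
    set c := 1 / ((l : ℝ) - 1) with hc
    have hc0 : 0 < c := by positivity
    have hq : Tendsto (fun x : ℕ => (x : ℝ) ^ ((1 : ℝ) / 4)) atTop atTop :=
      (tendsto_rpow_atTop (by norm_num)).comp tendsto_natCast_atTop_atTop
    have hq2 := hq.const_mul_atTop (show 0 < c / 80 by positivity)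
    refine tendsto_atTop_mono' _ ?_ hq2
    filter_upwards [(Metric.tendsto_nhds.1 hlim) (c / 2) (by positivity), eventually_ge_atTop 3]
      with x h1 hx
    have hx3 : (3 : ℝ) ≤ x := by exact_mod_cast hx
    have hx0 : (0 : ℝ) < x := by linarith
    have hlog : 0 < Real.log x := Real.log_pos (by linarith)
    have hpi : 0 < (Nat.primeCounting x : ℝ) := by
      have := Pool.Agent.H730R2.AA.pc_pos x (by omega)
      exact_mod_cast this
    rw [Real.dist_eq] at h1
    have h2 : c / 2 * Nat.primeCounting x ≤ Pool.Agent.H730R2.AA.Wd 5 l x := by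
      have h3 := (abs_lt.1 h1).1
      have h4 : c / 2 ≤ Pool.Agent.H730R2.AA.Wd 5 l x / Nat.primeCounting x := by linarith
      rwa [le_div_iff₀ hpi] at h4
    have h3 := Pool.Agent.H730R2.AA.MTLib.pi_lower x (by omega)
    have h4 : Real.log x ≤ (x : ℝ) ^ ((1 : ℝ) / 4) / (1 / 4) :=
      Real.log_le_rpow_div hx0.le (by norm_num)
    set u := (x : ℝ) ^ ((1 : ℝ) / 4) with hu
    have hu0 : 0 < u := by positivity
    have hx4 : (x : ℝ) = u ^ 4 := by
      rw [hu, ← Real.rpow_natCast, ← Real.rpow_mul hx0.le]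
      norm_num
    have hsx : √(x : ℝ) = u ^ 2 := by
      rw [hx4, show u ^ 4 = (u ^ 2) ^ 2 by ring, Real.sqrt_sq (by positivity)]
    have h5 : Real.log x ≤ 4 * u := by linarith
    rw [le_div_iff₀ (by positivity), hsx]
    refine le_trans ?_ (h2.trans (hcount x))
    have h6 : u ^ 4 / (10 * Real.log x) ≤ Nat.primeCounting x := by rw [← hx4]; exact h3
    have h7 : u ^ 3 / 40 ≤ u ^ 4 / (10 * Real.log x) := by
      rw [div_le_div_iff₀ (by norm_num) (by positivity)]
      calc u ^ 3 * (10 * Real.log x) ≤ u ^ 3 * (10 * (4 * u)) := by gcongr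
        _ = u ^ 4 * 40 := by ring
    calc c / 80 * u * u ^ 2 = c / 2 * (u ^ 3 / 40) := by ring
      _ ≤ c / 2 * Nat.primeCounting x := by
        apply mul_le_mul_of_nonneg_left (h7.trans h6) (by positivity)
  have h := cltK (fun _ : Unit => triv) (fun _ => k) y hy' (fun x _ => (Icc 1 x).filter Nat.Prime)
    (fun x _ => hPr x) (fun x i j hij => absurd (Subsingleton.elim i j) hij)
    (fun _ => hvar k l hl hlk' _ hPr hgrow) (fun _ => t)
  simpa using h

end Pool.Agent.Results.MP_48b1c3_nt.GaussianLawOfTheIndex
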