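import Mathlib
import Pool.Agent.Helper644_LA.Link2

set_option autoImplicit false

/-! # Lenstra's Q1 for fixed `W`, `k` from one Frobenius condition in each of many fields

Fix `W` and `k`. Let `deficit F C W k x` be Lenstra's density minus the proportion of `S(F, C, W, k)` among
the primes `≤ x`, and `deficit₀` the same for `F = ℚ`. For finitely many `(F_i, C_i)` with
`F_i ∩ F_j = ℚ` and `c_i = #C_i / [F_i : ℚ]`,
`∑ c_i / (1 - c_i) (deficit_i / c_i - deficit₀) ^ 2 ≤ deficit₀ (1 - deficit₀) + o(1)`.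
Hence if `∑ c_i / (1 - c_i) = ∞` then Q1 for the quadruples `(F_i, C_i, W, k)`, or only on average over
them, is equivalent to Q1 for all the quadruples `(F, C, W, k')`, `k' ∣ k`. -/

namespace Pool.Agent.Results.MP_48b1c3_nt.SparseFamilies

open NumberField Filter Topology

/-- the Frobenius class of `q` in `Gal(F/ℚ)` lies in `C` (`q` unramified, `C` stable under conjugation) -/
def Frob (F : IntermediateField ℚ (AlgebraicClosure ℚ)) [NumberField F] (C : Set (F ≃ₐ[ℚ] F))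
    (q : ℕ) : Prop :=
  ∃ σ ∈ C, ∃ Q : Ideal (𝓞 F), Q.IsPrime ∧
    Q.comap (algebraMap ℤ (𝓞 F)) = Ideal.span {(q : ℤ)} ∧
    ∀ a b : 𝓞 F, (b : F) = σ (a : F) → b - a ^ q ∈ Q

/-- the index `r_q(W)` -/
noncomputable def index (W : Subgroup ℚˣ) (q : ℕ) : ℕ :=
  (Subgroup.closure {u : (ZMod q)ˣ | ∃ w ∈ W,
    (((w : ℚ).num : ℤ) : ZMod q) = (u : ZMod q) * (((w : ℚ).den : ℕ) : ZMod q)}).index

/-- the set `S(F, C, W, k)` of Q1 -/
def Mem (F : IntermediateField ℚ (AlgebraicClosure ℚ)) [NumberField F] (C : Set (F ≃ₐ[ℚ] F))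
    (W : Subgroup ℚˣ) (k q : ℕ) : Prop :=
  Frob F C q ∧ (∀ w ∈ W, padicValRat q (w : ℚ) = 0) ∧ index W q ∣ k

/-- the set of Q1 for `F = ℚ` -/
def Mem₀ (W : Subgroup ℚˣ) (k q : ℕ) : Prop :=
  (∀ w ∈ W, padicValRat q (w : ℚ) = 0) ∧ index W q ∣ k

/-- the proportion of the primes `q ≤ x` with `A q` -/
noncomputable def proportion (A : ℕ → Prop) (x : ℕ) : ℝ :=
  (Nat.card {q : ℕ // q ≤ x ∧ q.Prime ∧ A q} : ℝ) / (Nat.primeCounting x : ℝ)

/-- the field `L_n` -/
noncomputable def L (W : Subgroup ℚˣ) (k n : ℕ) : IntermediateField ℚ (AlgebraicClosure ℚ) :=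
  IntermediateField.adjoin ℚ {z : AlgebraicClosure ℚ | ∃ w ∈ W,
    z ^ (∏ l ∈ n.primeFactors, l ^ (k.factorization l + 1)) =
      algebraMap ℚ (AlgebraicClosure ℚ) (w : ℚ)}

/-- Lenstra's density `δ(F, C, W, k)` -/
noncomputable def δ (F : IntermediateField ℚ (AlgebraicClosure ℚ)) [NumberField F]
    (C : Set (F ≃ₐ[ℚ] F)) (W : Subgroup ℚˣ) (k : ℕ) : ℝ :=
  ∑' n : ℕ, (ArithmeticFunction.moebius n : ℝ) *
    (Nat.card {σ : F ≃ₐ[ℚ] F // σ ∈ C ∧
      ∀ y : F, (y : AlgebraicClosure ℚ) ∈ L W k n → σ y = y} : ℝ) /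
    (Module.finrank ℚ ↥(F ⊔ L W k n) : ℝ)

/-- Lenstra's density for `F = ℚ` -/
noncomputable def δ₀ (W : Subgroup ℚˣ) (k : ℕ) : ℝ :=
  ∑' n : ℕ, (ArithmeticFunction.moebius n : ℝ) / (Module.finrank ℚ ↥(L W k n) : ℝ)

/-- the deficit at `x` -/
noncomputable def deficit (F : IntermediateField ℚ (AlgebraicClosure ℚ)) [NumberField F]
    (C : Set (F ≃ₐ[ℚ] F)) (W : Subgroup ℚˣ) (k x : ℕ) : ℝ :=
  δ F C W k - proportion (Mem F C W k) x

/-- the deficit at `x` for `F = ℚ` -/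
noncomputable def deficit₀ (W : Subgroup ℚˣ) (k x : ℕ) : ℝ :=
  δ₀ W k - proportion (Mem₀ W k) x

/-- Q1 for `(F, C, W, k)` -/
def Holds (F : IntermediateField ℚ (AlgebraicClosure ℚ)) [NumberField F] (C : Set (F ≃ₐ[ℚ] F))
    (W : Subgroup ℚˣ) (k : ℕ) : Prop :=
  Tendsto (proportion (Mem F C W k)) atTop (𝓝 (δ F C W k))

/-- the density of the Frobenius condition -/
noncomputable def density (F : IntermediateField ℚ (AlgebraicClosure ℚ))
    (C : Set (F ≃ₐ[ℚ] F)) : ℝ := (Nat.card C : ℝ) / (Nat.card (F ≃ₐ[ℚ] F) : ℝ)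

/-- the weight of the Frobenius condition -/
noncomputable def weight (F : IntermediateField ℚ (AlgebraicClosure ℚ))
    (C : Set (F ≃ₐ[ℚ] F)) : ℝ := density F C / (1 - density F C)

/-- `C` is stable under conjugation -/
def Stable (F : IntermediateField ℚ (AlgebraicClosure ℚ)) (C : Set (F ≃ₐ[ℚ] F)) : Prop :=
  ∀ σ ∈ C, ∀ τ : F ≃ₐ[ℚ] F, τ * σ * τ⁻¹ ∈ C

/-- `W` is finitely generated of positive rank -/
def Adm (W : Subgroup ℚˣ) : Prop := W.FG ∧ ∃ w ∈ W, ¬ IsOfFinOrder w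

open Pool.Agent.Helper644_LA Pool.Agent.W171.LG in
theorem result (W : Subgroup ℚˣ) (k : ℕ) (hW : Adm W) (hk : 0 < k) :
    (∀ (ι : Type) [Fintype ι] (F : ι → IntermediateField ℚ (AlgebraicClosure ℚ))
      [∀ i, NumberField (F i)] [∀ i, IsGalois ℚ (F i)] (C : ∀ i, Set (F i ≃ₐ[ℚ] F i)),
      (∀ i, Stable (F i) (C i)) → (∀ i j, i ≠ j → F i ⊓ F j = ⊥) →
      (∀ i, 0 < density (F i) (C i) ∧ density (F i) (C i) < 1) → ∀ η : ℝ, 0 < η →
      ∀ᶠ x in atTop,
        ∑ i, weight (F i) (C i) *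
          (deficit (F i) (C i) W k x / density (F i) (C i) - deficit₀ W k x) ^ 2 ≤
        deficit₀ W k x * (1 - deficit₀ W k x) + η) ∧
    (∀ (F : ℕ → IntermediateField ℚ (AlgebraicClosure ℚ))
      [∀ i, NumberField (F i)] [∀ i, IsGalois ℚ (F i)] (C : ∀ i, Set (F i ≃ₐ[ℚ] F i)),
      (∀ i, Stable (F i) (C i)) → (∀ i j, i ≠ j → F i ⊓ F j = ⊥) →
      (∀ i, 0 < density (F i) (C i) ∧ density (F i) (C i) < 1) →
      Tendsto (fun m => ∑ i ∈ Finset.range m, weight (F i) (C i)) atTop atTop →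
      ((∀ i, Holds (F i) (C i) W k) ↔
        ∀ (F' : IntermediateField ℚ (AlgebraicClosure ℚ)) [NumberField F'] [IsGalois ℚ F']
          (C' : Set (F' ≃ₐ[ℚ] F')) (k' : ℕ), Stable F' C' → k' ∣ k → Holds F' C' W k') ∧
      ((∀ i, Holds (F i) (C i) W k) ↔ ∀ η : ℝ, 0 < η → ∀ᶠ m in atTop, ∀ᶠ x in atTop,
        ∑ i ∈ Finset.range m, weight (F i) (C i) *
          (|deficit (F i) (C i) W k x| / density (F i) (C i)) ≤
        η * ∑ i ∈ Finset.range m, weight (F i) (C i))) := by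
  obtain ⟨hW1, hW2⟩ := hW
  have hP : Pos W := pos_of_inf hW2
  have eP : ∀ (A : ℕ → Prop) (x : ℕ), proportion A x = Pool.Agent.W401.Cheb.M (ind A) x :=
    fun A x => (M_ind A x).symm
  have eM : ∀ (F : IntermediateField ℚ (AlgebraicClosure ℚ)) [NumberField F] [IsGalois ℚ F]
      (C : Set (F ≃ₐ[ℚ] F)) (k x : ℕ), proportion (Mem F C W k) x = mS F C W k x := by
    intro F _ _ C k x
    rw [eP, mS_ind]
    rfl
  have eM0 : ∀ (k x : ℕ), proportion (Mem₀ W k) x = mS Q0 Set.univ W k x := by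
    intro k x
    rw [eP, mS_ind]
    refine M_eq_prime (fun p hp => ?_) x
    by_cases h' : L0 W k p
    · have h1 : ind (Mem₀ W k) p = 1 := ind_pos (A := Mem₀ W k) h'
      have h2 : ind (fun q => LC Q0 Set.univ k W q) p = 1 :=
        ind_pos (A := fun q => LC Q0 Set.univ k W q) ⟨GF_all hp, h'⟩
      rw [h1, h2]
    · have h1 : ind (Mem₀ W k) p = 0 := ind_neg (A := Mem₀ W k) h'
      have h2 : ind (fun q => LC Q0 Set.univ k W q) p = 0 :=
        ind_neg (A := fun q => LC Q0 Set.univ k W q) (fun h3 => h' h3.2)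
      rw [h1, h2]
  have eD : ∀ (F : IntermediateField ℚ (AlgebraicClosure ℚ)) [NumberField F] [IsGalois ℚ F]
      (C : Set (F ≃ₐ[ℚ] F)) (k : ℕ), δ F C W k = dL F C W k := by
    intro F _ _ C k
    rfl
  have eD0 : ∀ k : ℕ, δ₀ W k = dL Q0 Set.univ W k := by
    intro k
    rw [dL_univ]
    rfl
  have eE : ∀ (F : IntermediateField ℚ (AlgebraicClosure ℚ)) [NumberField F] [IsGalois ℚ F]
      (C : Set (F ≃ₐ[ℚ] F)) (k x : ℕ), deficit F C W k x = er W k F C x := by
    intro F _ _ C k x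
    unfold deficit er
    rw [eD, eM]
  have eE0 : ∀ (k x : ℕ), deficit₀ W k x = er W k Q0 Set.univ x := by
    intro k x
    unfold deficit₀ er
    rw [eD0, eM0]
  have eL : ∀ (F : IntermediateField ℚ (AlgebraicClosure ℚ)) [NumberField F] [IsGalois ℚ F]
      (C : Set (F ≃ₐ[ℚ] F)) (k : ℕ), Holds F C W k ↔ Law F C W k := by
    intro F _ _ C k
    unfold Holds Law
    have : proportion (Mem F C W k) = mS F C W k := funext fun x => eM F C k x
    rw [this, eD]
  -- from `ℚ` to everything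
  have up : Law Q0 Set.univ W k → ∀ (F : IntermediateField ℚ (AlgebraicClosure ℚ)) [NumberField F]
      [IsGalois ℚ F] (C : Set (F ≃ₐ[ℚ] F)) (k' : ℕ), Stable F C → k' ∣ k → Holds F C W k' := by
    intro h F _ _ C k' hC hkk
    rw [eL]
    unfold Law
    rw [Metric.tendsto_nhds]
    intro ε hε
    have h1 := abs_mono (F := F) (F' := Q0) hC univ_conj hW1 hP hk.ne' hkk
      (Eventually.of_forall fun p hp _ => GF_all hp) (show 0 < ε / 2 by linarith)
    have h2 := (Metric.tendsto_nhds.1 h) (ε / 2) (by linarith)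
    filter_upwards [h1, h2] with x hx1 hx2
    rw [Real.dist_eq] at hx2
    rw [Real.dist_eq]
    linarith
  refine ⟨?_, ?_⟩
  · intro ι _ F _ _ C hC hF hc η hη
    have h := bessel_wt (F := F) (C := C) hW1 hP hk.ne' hC hF hc η hη
    filter_upwards [h] with x hx
    simp only [eE, eE0]
    exact hx
  · intro F _ _ C hC hF hc hw
    have havg : (∀ i, Holds (F i) (C i) W k) → ∀ η : ℝ, 0 < η → ∀ᶠ m in atTop, ∀ᶠ x in atTop,
        ∑ i ∈ Finset.range m, weight (F i) (C i) *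
          (|deficit (F i) (C i) W k x| / density (F i) (C i)) ≤
        η * ∑ i ∈ Finset.range m, weight (F i) (C i) := by
      intro h η hη
      have h1 := avg_of_law (F := F) (C := C) (W := W) (k := k) hc
        (fun i => (eL (F i) (C i) k).1 (h i)) η hη
      simp only [eE]
      exact h1
    have hdesc : (∀ η : ℝ, 0 < η → ∀ᶠ m in atTop, ∀ᶠ x in atTop,
        ∑ i ∈ Finset.range m, weight (F i) (C i) *
          (|deficit (F i) (C i) W k x| / density (F i) (C i)) ≤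
        η * ∑ i ∈ Finset.range m, weight (F i) (C i)) → Law Q0 Set.univ W k := by
      intro h
      refine descend (F := F) (C := C) hW1 hP hk.ne' hC hF hc hw fun η hη => ?_
      have h1 := h η hη
      simp only [eE] at h1
      exact h1
    exact ⟨⟨fun h => up (hdesc (havg h)), fun h i => h (F i) (C i) k (hC i) dvd_rfl⟩,
      ⟨havg, fun h i => up (hdesc h) (F i) (C i) k (hC i) dvd_rfl⟩⟩

end Pool.Agent.Results.MP_48b1c3_nt.SparseFamilies
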